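import Pool.Agent.H4.FD.PsetB

/-!
The identity between the squares of the left translations by two involutions `x`, `y` and the
elements `D x * J`, `D y * J`.
-/

set_option autoImplicit false

namespace ALoop

open Equiv

variable {Q : Type*} {G : Subgroup (Perm Q)} {L : Q → Perm Q} {J : Perm Q} {e : Q}

namespace AL

section inv

variable {x y : Q}

theorem inv_DL (h : AL G L J e) (hJx : J x = x) : (L x)⁻¹ * J * L x = D L J x := by
  have hLie : (L x)⁻¹ e = x := by rw [Perm.inv_eq_iff_eq]; exact (h.LxLx hJx).symm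
  have h1 := h.D_conj (G.inv_mem (h.memL x)) e
  rw [h.D_e, hLie, inv_inv] at h1
  exact h1

/-- `J * L x = L x * D x` -/
theorem JL_eq (h : AL G L J e) (hJx : J x = x) : J * L x = L x * D L J x := by
  rw [← h.inv_DL hJx]; group

/-- `(L x)⁻¹ * J = D x * (L x)⁻¹` -/
theorem LiJ_eq (h : AL G L J e) (hJx : J x = x) : (L x)⁻¹ * J = D L J x * (L x)⁻¹ := by
  rw [← h.inv_DL hJx]; group

/-- `L x * J = D x * L x` -/
theorem LJ_eq (x : Q) : L x * J = D L J x * L x := by unfold D; group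

/-- `J * (L x)⁻¹ = (L x)⁻¹ * D x` -/
theorem JLi_eq (x : Q) : J * (L x)⁻¹ = (L x)⁻¹ * D L J x := by unfold D; group

/-- conjugates of `D y * D x` under `L x` and `L y` -/
theorem conj_rho (h : AL G L J e) (hJx : J x = x) (hJy : J y = y) :
    L x * (D L J y * D L J x) * (L x)⁻¹ = L y * (D L J y * D L J x) * (L y)⁻¹ := by
  have hJJ := h.JJ1
  have h1 : L x * D L J y * (L x)⁻¹ = D L J (L x y) := h.D_conj (h.memL x) y
  have h2 : L y * D L J x * (L y)⁻¹ = D L J (L y x) := h.D_conj (h.memL y) x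
  have h3 : J (L x y) = L y x := by
    have := h.aaip x y
    rw [hJx, hJy] at this
    exact this
  have h4 := h.D_J (L x y)
  rw [h3, ← h2, ← h1] at h4
  -- `h4 : J * (L x * D y * (L x)⁻¹) * J = L y * D x * (L y)⁻¹`
  have h5 : L x * (D L J y * D L J x) * (L x)⁻¹ = L x * D L J y * (L x)⁻¹ * J := by
    calc L x * (D L J y * D L J x) * (L x)⁻¹ = L x * D L J y * (D L J x * (L x)⁻¹) := by group
      _ = L x * D L J y * ((L x)⁻¹ * J) := by rw [h.LiJ_eq hJx]
      _ = L x * D L J y * (L x)⁻¹ * J := by group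
  have h6 : L y * (D L J y * D L J x) * (L y)⁻¹ = J * (L y * D L J x * (L y)⁻¹) := by
    calc L y * (D L J y * D L J x) * (L y)⁻¹ = (L y * D L J y) * D L J x * (L y)⁻¹ := by group
      _ = (J * L y) * D L J x * (L y)⁻¹ := by rw [h.JL_eq hJy]
      _ = J * (L y * D L J x * (L y)⁻¹) := by group
  rw [h5, h6, ← h4]
  calc L x * D L J y * (L x)⁻¹ * J = (J * J) * (L x * D L J y * (L x)⁻¹) * J := by
        rw [hJJ, one_mul]
    _ = J * (J * (L x * D L J y * (L x)⁻¹) * J) := by group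

/-- `(L x)⁻¹ * L y` commutes with `D y * D x` -/
theorem com_v (h : AL G L J e) (hJx : J x = x) (hJy : J y = y) :
    ((L x)⁻¹ * L y) * (D L J y * D L J x) = (D L J y * D L J x) * ((L x)⁻¹ * L y) := by
  have h1 := h.conj_rho hJx hJy
  calc ((L x)⁻¹ * L y) * (D L J y * D L J x)
      = (L x)⁻¹ * (L y * (D L J y * D L J x) * (L y)⁻¹) * L y := by group
    _ = (L x)⁻¹ * (L x * (D L J y * D L J x) * (L x)⁻¹) * L y := by rw [h1]
    _ = (D L J y * D L J x) * ((L x)⁻¹ * L y) := by group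

/-- the basic facts on `p = x \ y` -/
theorem basics (h : AL G L J e) (hJx : J x = x) (hxe : x ≠ e) (hJy : J y = y)
    {p : Q} (hp : L x p = y) :
    L y (J p) = x ∧ L p * (J * L (J p) * J)⁻¹ = D L J x * D L J y ∧
      (D L J y * D L J x) p = p ∧ (D L J y * D L J x) * L p = L p * (D L J y * D L J x) ∧
      ((L y)⁻¹ * L x * L p) ∈ G ∧ ((L y)⁻¹ * L x * L p) e = e ∧
      ((L y)⁻¹ * L x * L p) x = x ∧ ((L y)⁻¹ * L x * L p) y = y ∧
      ((L y)⁻¹ * L x * L p) p = p := by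
  have hJJ := h.JJ1
  have hDxJ := h.Dx_J hJx
  have hDyJ := h.Dx_J hJy
  have hDDx := h.D_sq x
  have hDDy := h.D_sq y
  set Dx := D L J x with hDx
  set Dy := D L J y with hDy
  set κ := (L y)⁻¹ * L x * L p with hκ
  have hκG : κ ∈ G := G.mul_mem (G.mul_mem (G.inv_mem (h.memL y)) (h.memL x)) (h.memL p)
  have hκe : κ e = e := by
    rw [hκ, Perm.mul_apply, Perm.mul_apply, h.Le, hp, Perm.inv_eq_iff_eq, h.Le]
  have hκx : κ x = x := by
    rw [hκ, Perm.mul_apply, Perm.mul_apply, Perm.inv_eq_iff_eq]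
    have h1 := h.R_apply p x
    have h2 := h.R_apply y x
    rw [hJx] at h1 h2
    rw [← h1, ← h2, ← Perm.mul_apply, h.comLR x, Perm.mul_apply, hp]
  have hκD : κ * Dx = Dx * κ := (h.D_cent hκG x).2 hκx
  have hκJ : κ * J = J * κ := h.comJ κ hκG hκe
  -- `D p`
  have hpi : (L x)⁻¹ y = p := by rw [Perm.inv_eq_iff_eq]; exact hp.symm
  have hDp : D L J p = (L x)⁻¹ * Dy * L x := by
    have h1 := h.D_conj (G.inv_mem (h.memL x)) y
    rw [hpi, inv_inv] at h1
    exact h1.symm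
  have hzG := h.Z_mem (h.zx_mem hJx hxe)
  have hze := h.zx_e hJx hxe
  have hzp : (Dx * J) p = J p := by
    apply h.D_inj
    rw [← h.D_conj hzG, ← h.D_J, hDp]
    have hi : (Dx * J)⁻¹ = J * Dx := by
      rw [mul_inv_rev, h.Jinv, inv_eq_of_mul_eq_one_left hDDx]
    have e1 : J * (L x)⁻¹ = (L x)⁻¹ * Dx := JLi_eq x
    have e2 : L x * J = Dx * L x := LJ_eq x
    have e3 : J * L x = L x * Dx := h.JL_eq hJx
    have e4 : (L x)⁻¹ * J = Dx * (L x)⁻¹ := h.LiJ_eq hJx
    calc (D L J x * J) * ((L x)⁻¹ * Dy * L x) * (D L J x * J)⁻¹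
        = (Dx * J) * ((L x)⁻¹ * Dy * L x) * (J * Dx) := by rw [← hi]
      _ = Dx * (J * (L x)⁻¹) * Dy * (L x * J) * Dx := by group
      _ = Dx * ((L x)⁻¹ * Dx) * Dy * (Dx * L x) * Dx := by rw [e1, e2]
      _ = (Dx * (L x)⁻¹) * Dx * Dy * Dx * (L x * Dx) := by group
      _ = ((L x)⁻¹ * J) * Dx * Dy * Dx * (J * L x) := by rw [e3, e4]
      _ = (L x)⁻¹ * (J * Dx) * Dy * Dx * J * L x := by group
      _ = (L x)⁻¹ * (Dx * J) * Dy * Dx * J * L x := by rw [hDxJ]
      _ = (L x)⁻¹ * Dx * (J * Dy) * (Dx * J) * L x := by group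
      _ = (L x)⁻¹ * Dx * (Dy * J) * (J * Dx) * L x := by rw [hDyJ, hDxJ]
      _ = (L x)⁻¹ * Dx * Dy * (J * J) * Dx * L x := by group
      _ = ((L x)⁻¹ * Dx) * Dy * (Dx * L x) := by rw [hJJ]; group
      _ = (J * (L x)⁻¹) * Dy * (L x * J) := by rw [e1, e2]
      _ = J * ((L x)⁻¹ * Dy * L x) * J := by group
  -- the right translation by `p`
  have hR : J * L (J p) * J = Dx * L p * Dx := by
    have h1 := h.equi _ hzG hze p
    have hi : (D L J x * J)⁻¹ = J * Dx := by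
      rw [mul_inv_rev, h.Jinv, inv_eq_of_mul_eq_one_left hDDx]
    have h2 : L (J p) = Dx * J * L p * (J * Dx) := by
      rw [← hi, ← hzp]; exact h1.symm
    calc J * L (J p) * J = J * (Dx * J * L p * (J * Dx)) * J := by rw [h2]
      _ = (J * Dx) * J * L p * J * (Dx * J) := by group
      _ = (Dx * J) * J * L p * J * (J * Dx) := by rw [hDxJ]
      _ = Dx * (J * J) * L p * (J * J) * Dx := by group
      _ = Dx * L p * Dx := by rw [hJJ]; group
  have hDxi : Dx⁻¹ = Dx := inv_eq_of_mul_eq_one_left hDDx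
  have hLp : L p = (L x)⁻¹ * L y * κ := by rw [hκ]; group
  -- `v * Dx * v⁻¹ = Dx * Dy * Dx`
  have hv := h.com_v hJx hJy
  have hconj : L y * Dx * (L y)⁻¹ = L x * (Dx * Dy * Dx) * (L x)⁻¹ := by
    have h1 : L x * Dy * (L x)⁻¹ = D L J (L x y) := h.D_conj (h.memL x) y
    have h2 : L y * Dx * (L y)⁻¹ = D L J (L y x) := h.D_conj (h.memL y) x
    have h3 : J (L x y) = L y x := by
      have := h.aaip x y
      rw [hJx, hJy] at this
      exact this
    have h4 := h.D_J (L x y)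
    rw [h3, ← h2, ← h1] at h4
    rw [← h4]
    calc J * (L x * Dy * (L x)⁻¹) * J = (J * L x) * Dy * ((L x)⁻¹ * J) := by group
      _ = (L x * Dx) * Dy * (Dx * (L x)⁻¹) := by rw [h.JL_eq hJx, h.LiJ_eq hJx]
      _ = L x * (Dx * Dy * Dx) * (L x)⁻¹ := by group
  have hT : L p * (J * L (J p) * J)⁻¹ = Dx * Dy := by
    rw [hR]
    calc L p * (Dx * L p * Dx)⁻¹ = L p * Dx⁻¹ * (L p)⁻¹ * Dx⁻¹ := by group
      _ = L p * Dx * (L p)⁻¹ * Dx := by rw [hDxi]
      _ = ((L x)⁻¹ * L y * κ) * Dx * ((L x)⁻¹ * L y * κ)⁻¹ * Dx := by rw [← hLp]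
      _ = (L x)⁻¹ * L y * (κ * Dx) * κ⁻¹ * (L y)⁻¹ * L x * Dx := by group
      _ = (L x)⁻¹ * (L y * Dx * (L y)⁻¹) * L x * Dx := by rw [hκD]; group
      _ = (L x)⁻¹ * (L x * (Dx * Dy * Dx) * (L x)⁻¹) * L x * Dx := by rw [hconj]
      _ = Dx * Dy * (Dx * Dx) := by group
      _ = Dx * Dy := by rw [hDDx, mul_one]
  -- `Dx * Dy` fixes `p`
  have hTp : (Dx * Dy) p = p := by
    rw [← hT]
    have h1 : (J * L (J p) * J) e = p := by rw [h.R_apply, h.Le1, Perm.one_apply]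
    have h2 : (J * L (J p) * J)⁻¹ p = e := by rw [Perm.inv_eq_iff_eq]; exact h1.symm
    rw [Perm.mul_apply, h2, h.Le]
  have hρi : (Dx * Dy)⁻¹ = Dy * Dx := by
    rw [mul_inv_rev, hDxi, inv_eq_of_mul_eq_one_left hDDy]
  have hρp : (Dy * Dx) p = p := by
    rw [← hρi, Perm.inv_eq_iff_eq]; exact hTp.symm
  have hρG : Dy * Dx ∈ G := h.D_mul_mem y x
  have hρe : (Dy * Dx) e = e := by
    apply h.centJ hρG
    calc Dy * Dx * J = Dy * (Dx * J) := by group
      _ = Dy * J * Dx := by rw [hDxJ]; group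
      _ = J * (Dy * Dx) := by rw [hDyJ]; group
  have hρL : (Dy * Dx) * L p = L p * (Dy * Dx) := h.comL hρG hρe hρp
  have hρκ : κ * (Dy * Dx) = (Dy * Dx) * κ := by
    have h1 : κ = ((L x)⁻¹ * L y)⁻¹ * L p := by rw [hκ]; group
    have c1 : Commute (Dy * Dx) ((L x)⁻¹ * L y) := hv.symm
    have c2 : Commute (Dy * Dx) (L p) := hρL
    rw [h1]
    exact ((c1.inv_right).mul_right c2).symm.eq
  have hκDy : κ * Dy = Dy * κ := by
    have c1 : Commute κ (Dy * Dx) := hρκ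
    have c2 : Commute κ Dx := hκD
    have h1 : Dy = (Dy * Dx) * Dx := by rw [mul_assoc, hDDx, mul_one]
    rw [h1]
    exact (c1.mul_right c2).eq
  have hκy : κ y = y := (h.D_cent hκG y).1 hκDy
  have hκp : κ p = p := by
    have h1 := h.aut hκG hκe x p
    rw [hp, hκy, hκx] at h1
    apply (L x).injective
    rw [← h1, hp]
  refine ⟨?_, hT, hρp, hρL, hκG, hκe, hκx, hκy, hκp⟩
  have h1 : κ (J p) = J p := by
    have := congrArg (fun q : Perm Q => q p) hκJ
    simp only [Perm.mul_apply] at this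
    rw [this, hκp]
  have h2 : κ (J p) = (L y)⁻¹ x := by
    rw [hκ, Perm.mul_apply, Perm.mul_apply, h.LJ, h.Le]
  rw [h1] at h2
  rw [h2, apply_inv']

/-- the square of the left translation by an involution is an inner mapping fixing it -/
theorem sq_inn (h : AL G L J e) (hJx : J x = x) :
    L x * L x ∈ G ∧ (L x * L x) e = e ∧ (L x * L x) x = x := by
  have hLxx := h.LxLx hJx
  refine ⟨G.mul_mem (h.memL x) (h.memL x), ?_, ?_⟩
  · rw [Perm.mul_apply, h.Le, hLxx]
  · rw [Perm.mul_apply, hLxx, h.Le]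

/-- `(L y)⁻² * (L x)²` commutes with `D y * D x` -/
theorem com_lam (h : AL G L J e) (hJx : J x = x) (hxe : x ≠ e) (hJy : J y = y) :
    ((L y * L y)⁻¹ * (L x * L x)) * (D L J y * D L J x) =
      (D L J y * D L J x) * ((L y * L y)⁻¹ * (L x * L x)) := by
  obtain ⟨p, hp⟩ : ∃ p, L x p = y := ⟨(L x)⁻¹ y, apply_inv' _ _⟩
  obtain ⟨h1, h2, -⟩ := h.basics hJx hxe hJy hp
  obtain ⟨gx, ex, -⟩ := h.sq_inn hJx
  obtain ⟨gy, ey, -⟩ := h.sq_inn hJy
  have hq : (L x * L x) p = L x y := by rw [Perm.mul_apply, hp]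
  have hq' : (L y * L y) (J p) = L y x := by rw [Perm.mul_apply, h1]
  have h3 : J (L y x) = L x y := by
    have := h.aaip y x
    rw [hJx, hJy] at this
    exact this
  have h4 : (L y * L y) p = L x y := by
    have hc := h.comJ _ gy ey
    have h5 : (L y * L y) (J (J p)) = J ((L y * L y) (J p)) := by
      have := congrArg (fun q : Perm Q => q (J p)) hc
      simp only [Perm.mul_apply] at this ⊢
      exact this
    rw [h.JJ] at h5
    rw [h5, hq', h3]
  set δ := (L y * L y)⁻¹ * (L x * L x) with hδ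
  have hδG : δ ∈ G := G.mul_mem (G.inv_mem gy) gx
  have hδe : δ e = e := by
    rw [hδ, Perm.mul_apply, ex, Perm.inv_eq_iff_eq, ey]
  have hδp : δ p = p := by
    rw [hδ, Perm.mul_apply, hq, Perm.inv_eq_iff_eq, h4]
  have c1 : Commute δ (L p) := h.comL hδG hδe hδp
  have c2 : Commute δ (J * L (J p) * J) := h.comR hδG hδe hδp
  have c3 : Commute δ (D L J x * D L J y) := by
    rw [← h2]
    exact c1.mul_right c2.inv_right
  have hρi : (D L J x * D L J y)⁻¹ = D L J y * D L J x := by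
    rw [mul_inv_rev, inv_eq_of_mul_eq_one_left (h.D_sq x), inv_eq_of_mul_eq_one_left (h.D_sq y)]
  rw [← hρi]
  exact c3.inv_right.eq

/-- the identity between the squares of the left translations by two involutions -/
theorem lam_G (h : AL G L J e) (hJx : J x = x) (hxe : x ≠ e) (hJy : J y = y)
    (hye : y ≠ e) :
    (L x * L x) * (D L J y * J) * (L x * L x)⁻¹ * (D L J y * J) =
      (D L J x * J) * (L y * L y) * (D L J x * J) * (L y * L y)⁻¹ := by
  have hJJ := h.JJ1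
  have hDxJ := h.Dx_J hJx
  have hDyJ := h.Dx_J hJy
  have hzx := h.Z_sq (h.zx_mem hJx hxe)
  have hzy := h.Z_sq (h.zx_mem hJy hye)
  have hxc : Commute (D L J x * J) (L x * L x) := by
    have : Commute (D L J x * J) (L x) := h.Lx_z hJx hxe
    exact this.mul_right this
  have hyc : Commute (D L J y * J) (L y * L y) := by
    have : Commute (D L J y * J) (L y) := h.Lx_z hJy hye
    exact this.mul_right this
  have h1 := h.com_lam hJx hxe hJy
  have h2 : D L J y * D L J x = (D L J y * J) * (D L J x * J) := by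
    calc D L J y * D L J x = D L J y * (J * J) * D L J x := by rw [hJJ, mul_one]
      _ = (D L J y * J) * (J * D L J x) := by group
      _ = (D L J y * J) * (D L J x * J) := by rw [hDxJ]
  rw [h2] at h1
  set zx := D L J x * J
  set zy := D L J y * J
  set lx := L x * L x
  set ly := L y * L y
  have ezx : zx⁻¹ = zx := inv_eq_of_mul_eq_one_right hzx
  have ezy : zy⁻¹ = zy := inv_eq_of_mul_eq_one_right hzy
  -- `lx * zy * lx⁻¹ = zy * ly * zx * ly⁻¹ * zx`
  have h3 : lx * zy * lx⁻¹ = zy * ly * zx * ly⁻¹ * zx := by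
    have h4 : lx * (zy * zx) = ly * (zy * zx) * ly⁻¹ * lx := by
      calc lx * (zy * zx) = ly * (ly⁻¹ * lx * (zy * zx)) := by group
        _ = ly * ((zy * zx) * (ly⁻¹ * lx)) := by rw [h1]
        _ = ly * (zy * zx) * ly⁻¹ * lx := by group
    calc lx * zy * lx⁻¹ = lx * zy * (zx * zx) * lx⁻¹ := by rw [hzx, mul_one]
      _ = (lx * (zy * zx)) * (zx * lx⁻¹) := by group
      _ = (ly * (zy * zx) * ly⁻¹ * lx) * (lx⁻¹ * zx) := by
          rw [h4, (hxc.inv_right).eq]
      _ = (ly * zy) * zx * ly⁻¹ * zx := by group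
      _ = (zy * ly) * zx * ly⁻¹ * zx := by rw [hyc.eq]
      _ = zy * ly * zx * ly⁻¹ * zx := rfl
  have h5 : (lx * zy * lx⁻¹)⁻¹ = (zy * ly * zx * ly⁻¹ * zx)⁻¹ := by rw [h3]
  have h6 : (lx * zy * lx⁻¹)⁻¹ = lx * zy * lx⁻¹ := by
    calc (lx * zy * lx⁻¹)⁻¹ = lx * zy⁻¹ * lx⁻¹ := by group
      _ = lx * zy * lx⁻¹ := by rw [ezy]
  have h7 : (zy * ly * zx * ly⁻¹ * zx)⁻¹ = zx * ly * zx * ly⁻¹ * zy := by
    calc (zy * ly * zx * ly⁻¹ * zx)⁻¹ = zx⁻¹ * ly * zx⁻¹ * ly⁻¹ * zy⁻¹ := by group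
      _ = zx * ly * zx * ly⁻¹ * zy := by rw [ezx, ezy]
  rw [h6, h7] at h5
  rw [h5, mul_assoc _ zy zy, hzy, mul_one]

end inv

end AL

end ALoop
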